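import Pool.Agent.Helper3.LimitConst
import Pool.Agent.Helper3.UFinal

/-- For every `R ≥ 1` the sequence `C(k+R,R) * (1 - π(K_{k+R}^k))` converges, as `k → ∞`, to a real number `L_R`
with `1 ≤ L_R ≤ 300 R log (R+1)`; moreover `L_1 ≤ 2.1`. -/
theorem Pool.Agent.Results.MP_a4d830_co.C_LimitConstant.result :
    ∀ R : ℕ, 1 ≤ R →
      (∀ k : ℕ, Filter.Tendsto
        (fun n : ℕ => (Pool.Agent.Helper1.Turan.exNum k (k + R) n : ℝ) / (n.choose k : ℝ))
        Filter.atTop (nhds (Pool.Agent.Helper1.Turan.turanDensity k (k + R)))) ∧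
      ∃ L : ℝ, 1 ≤ L ∧ L ≤ 300 * (R : ℝ) * Real.log ((R : ℝ) + 1) ∧ (R = 1 → L ≤ 21 / 10) ∧
        Filter.Tendsto
          (fun k : ℕ => ((k + R).choose R : ℝ) *
            (1 - Pool.Agent.Helper1.Turan.turanDensity k (k + R)))
          Filter.atTop (nhds L) := by
  intro R hR
  obtain ⟨h1, L, h2, h3, h4⟩ := Pool.Agent.Helper3.Turan.limit_constant R hR
  refine ⟨h1, L, h2, ?_, h3, h4⟩
  have hlim : Filter.Tendsto
      (fun k : ℕ => (300 * (R : ℝ) * Real.log ((R : ℝ) + 1)) * (1 + (R : ℝ) / (k : ℝ)))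
      Filter.atTop (nhds ((300 * (R : ℝ) * Real.log ((R : ℝ) + 1)) * (1 + 0))) :=
    (tendsto_const_nhds.add (tendsto_const_div_atTop_nhds_zero_nat (R : ℝ))).const_mul _
  rw [add_zero, mul_one] at hlim
  refine le_of_tendsto_of_tendsto h4 hlim ?_
  filter_upwards [Filter.eventually_ge_atTop (R + 2)] with k hk
  have h := Pool.Agent.Helper3.Turan.tau_uniform (k := k) (R := R) (by omega) hR
  have hmin : min k R = R := min_eq_right (by omega)
  rw [hmin] at h
  have hk0 : (0 : ℝ) < (k : ℝ) := by exact_mod_cast (by omega : 0 < k)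
  have hnat : (k + R).choose R * k = (k + R - 1).choose (k - 1) * (k + R) := by
    obtain ⟨j, rfl⟩ : ∃ j, k = j + 1 := ⟨k - 1, by omega⟩
    have e1 : (j + 1 + R).choose R = (j + 1 + R).choose (j + 1) := by
      rw [← Nat.choose_symm (by omega : j + 1 ≤ j + 1 + R)]
      congr 1
      omega
    have e2 : (j + R + 1) * (j + R).choose j = (j + R + 1).choose (j + 1) * (j + 1) :=
      Nat.add_one_mul_choose_eq (j + R) j
    have e3 : j + 1 + R - 1 = j + R := by omega
    have e4 : j + 1 + R = j + R + 1 := by omega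
    rw [e1, e3, Nat.add_sub_cancel, e4]
    linarith [e2]
  have hreal : ((k + R).choose R : ℝ) =
      ((k + R - 1).choose (k - 1) : ℝ) * (1 + (R : ℝ) / (k : ℝ)) := by
    have h5 : ((k + R).choose R : ℝ) * (k : ℝ) = ((k + R - 1).choose (k - 1) : ℝ) * ((k : ℝ) + (R : ℝ)) := by
      exact_mod_cast hnat
    field_simp
    linarith [h5]
  rw [hreal]
  have hpos : (0 : ℝ) ≤ 1 + (R : ℝ) / (k : ℝ) := by positivity
  calc ((k + R - 1).choose (k - 1) : ℝ) * (1 + (R : ℝ) / (k : ℝ)) *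
        (1 - Pool.Agent.Helper1.Turan.turanDensity k (k + R))
      = ((1 - Pool.Agent.Helper1.Turan.turanDensity k (k + R)) * ((k + R - 1).choose (k - 1) : ℝ)) *
        (1 + (R : ℝ) / (k : ℝ)) := by ring
    _ ≤ (300 * (R : ℝ) * Real.log ((R : ℝ) + 1)) * (1 + (R : ℝ) / (k : ℝ)) :=
        mul_le_mul_of_nonneg_right h hpos
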