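import Pool.Agent.Helper1.T3.Turan

/-- For every `m ≥ 4`: `π(K_m^3) ≤ 1 - (5/2) / (m-1)^2`. -/
theorem Pool.Agent.Results.MP_a4d830_co.F_FiveHalves.result :
    ∀ m : ℕ, 4 ≤ m →
      Filter.Tendsto
        (fun n : ℕ => (Pool.Agent.Helper1.Turan.exNum 3 m n : ℝ) / (n.choose 3 : ℝ))
        Filter.atTop (nhds (Pool.Agent.Helper1.Turan.turanDensity 3 m)) ∧
      Pool.Agent.Helper1.Turan.turanDensity 3 m ≤ 1 - (5 / 2) / ((m : ℝ) - 1) ^ 2 := by
  intro m hm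
  exact ⟨Pool.Agent.Helper1.Turan.tendsto_turanDensity (by omega),
    Pool.Agent.Helper1.T3.turanDensity_three_le (by omega)⟩
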